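import Pool.Agent.H69.LR.Rebase

/-!
# The adversary: every good assignment leads to a wide line
-/

namespace Pool.Agent.H69.LR

open Finset Pool.Agent.H79.RD

theorem p_lt' {D L m p t : ℕ} (h1 : t + p * L ≤ D) (h2 : D < m * L) : p < m := by
  by_contra h
  push Not at h
  have := Nat.mul_le_mul_right L h
  omega

/-- The state at the root. -/
theorem root_state {V : Type} [DecidableEq V] {N b k g a a0 D L d : ℕ} {φ : Fin N → Fin b → V}
    {Forb : Finset (Idx N b k)} (z0 : V → Bool) (X : Finset V) (hk : 1 ≤ k) (hg : 1 ≤ g)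
    (ha0 : 1 ≤ a0) (hd : d ≤ D) (hXb : ∀ i, 2 * g ≤ (unr φ X i).card) :
    StateAt φ Forb g a a0 D L z0 (ext z0 X ∅) d 0 z0 X X (fun _ => ∅) [] := by
  have hA : Act φ g X = (∅ : Finset (Fin N)) := by
    unfold Act
    rw [Finset.filter_eq_empty_iff]
    intro i _
    have := hXb i
    omega
  refine ⟨?_, ?_, ?_, ?_, ?_, ?_, fun _ _ => rfl, Finset.Subset.refl _, ?_, fun i _ => hXb i, ?_⟩
  · rw [falsified_ext]
    exact ⟨fun l hl => absurd hl (Finset.notMem_empty l), fun _ _ => rfl⟩
  · intro l hl
    have h1 : l.1 ∈ vars (ext z0 X (∅ : Clause V)) := Finset.mem_image_of_mem _ hl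
    rw [vars_ext] at h1
    simpa [vars] using h1
  · rw [hA]
    intro σ hσ
    exact absurd (hσ ⟨0, hk⟩) (Finset.notMem_empty _)
  · intro q
    exact Nat.zero_le _
  · exact hA.symm
  · refine ⟨rfl, ?_, ?_, ?_, ?_⟩ <;> simp [prs]
  · rw [hA, Finset.card_empty]
    omega
  · rw [Finset.sdiff_self, Finset.card_empty]
    omega

/-- A wide line ends the walk. -/
theorem finish (hDI : T_DI) {V : Type} [Fintype V] [DecidableEq V]
    {N b k g a a0 D L m R e : ℕ} {φ : Fin N → Fin b → V} {Forb : Finset (Idx N b k)}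
    {z0 z1 : V → Bool} {C : Clause V} {d p : ℕ} {z : V → Bool}
    {Rv St : Finset V} {A : ℕ → Finset (Fin N)} {evs : List (Ev N b k)}
    (hD : D < m * L) (hPN : PN Forb a m R)
    (hst : StateAt φ Forb g a a0 D L z1 C d p z Rv St A evs)
    (h1 : (Finset.univ.filter (fun u => z1 u ≠ z0 u)).card ≤ e) :
    (Finset.univ.filter (fun u => z u ≠ z0 u)).card ≤ e + b * R := by
  have hp : p < m := p_lt' hst.pot hD
  obtain ⟨hcur, hev, hforb, hnodup, -⟩ := hst.hist
  obtain ⟨J, hJ, hJz⟩ := hDI N b k (bv φ z1) evs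
  have hlen : evs.length < R := by
    refine hPN A hst.cardA (bv φ z1) evs ?_ hforb hnodup
    intro e he
    exact ⟨lt_of_le_of_lt (hev e he).1 hp, (hev e he).2⟩
  have hsub : Finset.univ.filter (fun u => z u ≠ z0 u) ⊆
      Finset.univ.filter (fun u => z1 u ≠ z0 u) ∪
        (J ×ˢ (Finset.univ : Finset (Fin b))).image (fun q => φ q.1 q.2) := by
    intro u hu
    have hne := (Finset.mem_filter.1 hu).2
    by_cases h : z u = z1 u
    · refine Finset.mem_union_left _ (Finset.mem_filter.2 ⟨Finset.mem_univ _, ?_⟩)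
      rwa [h] at hne
    · refine Finset.mem_union_right _ ?_
      by_cases hb : ∀ i j, u ≠ φ i j
      · exact absurd (hst.off u hb) h
      · push Not at hb
        obtain ⟨i, j, rfl⟩ := hb
        have hi : i ∈ J := by
          by_contra hi
          have h3 := hJz i hi
          rw [hcur] at h3
          exact h (congrFun h3 j)
        exact Finset.mem_image.2 ⟨(i, j), Finset.mem_product.2 ⟨hi, Finset.mem_univ _⟩, rfl⟩
  refine (Finset.card_le_card hsub).trans ((Finset.card_union_le _ _).trans ?_)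
  refine Nat.add_le_add h1 (Finset.card_image_le.trans ?_)
  rw [Finset.card_product, Finset.card_univ, Fintype.card_fin, mul_comm]
  exact Nat.mul_le_mul_left _ (by omega)

/-- Every assignment `z0` which differs from `σ` in at least `2 g` places of every block leads to
a wide line, falsified by an assignment which differs from `z0` in few places. -/
theorem adversary (hLF : T_LF) (hST : T_ST) (hRS : T_RS) (hDI : T_DI) (hAL : T_AL) (hAG : T_AG)
    (hFS : T_FS) {V : Type} [Fintype V] [DecidableEq V] {N b k g a a0 D L m R S t : ℕ}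
    (φ : Fin N → Fin b → V) (Forb : Finset (Idx N b k)) (hinj : Inj2 φ) (hk : 1 ≤ k) (hg : 1 ≤ g)
    (ha0 : 1 ≤ a0) (haa : a0 ≤ a) (hL : L = g * (a - a0)) (hD : D + 1 < m * L)
    (hPE : PE Forb a g R) (hPN : PN Forb a m R) (σ z0 : V → Bool)
    (P : LRef (Forb.image (clauseOf φ)) σ t S D) (X : Finset V) (hX : ∀ u, u ∉ X → z0 u ≠ σ u)
    (hXb : ∀ i, 2 * g ≤ (unr φ X i).card) :
    ∃ (v : Fin S) (z : V → Bool), Falsified (ext z0 X (P.C v)) z ∧
      Wide φ g a0 (ext z0 X (P.C v)) ∧
      (Finset.univ.filter (fun u => z u ≠ z0 u)).card ≤ t + 2 * g * N + b * R := by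
  have hm : 0 < m := by
    rcases Nat.eq_zero_or_pos m with h | h
    · rw [h, Nat.zero_mul] at hD
      omega
    · exact h
  have key : ∀ n : ℕ, ∀ v : Fin S, v.val = n →
      ∀ (z1 : V → Bool), (Finset.univ.filter (fun u => z1 u ≠ z0 u)).card ≤ t + 2 * g * N →
      ∀ (p : ℕ) (z : V → Bool) (Rv St : Finset V) (A : ℕ → Finset (Fin N))
        (evs : List (Ev N b k)),
        StateAt φ Forb g a a0 (D + 1) L z1 (ext z0 X (P.C v)) (P.run v + 1) p z Rv St A evs →
      ∃ (v : Fin S) (z : V → Bool), Falsified (ext z0 X (P.C v)) z ∧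
        Wide φ g a0 (ext z0 X (P.C v)) ∧
        (Finset.univ.filter (fun u => z u ≠ z0 u)).card ≤ t + 2 * g * N + b * R := by
    intro n
    induction n using Nat.strong_induction_on with
    | _ n ih =>
      intro v hv z1 hz1
      -- a child
      have child : ∀ c : Fin S, c < v → ∀ (d p : ℕ) (z : V → Bool) (Rv St : Finset V)
          (A : ℕ → Finset (Fin N)) (evs : List (Ev N b k)),
          (opp σ (P.C c) ≤ t ∨ d = P.run c + 1) →
          StateAt φ Forb g a a0 (D + 1) L z1 (ext z0 X (P.C c)) d p z Rv St A evs →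
          ∃ (v : Fin S) (z : V → Bool), Falsified (ext z0 X (P.C v)) z ∧
            Wide φ g a0 (ext z0 X (P.C v)) ∧
            (Finset.univ.filter (fun u => z u ≠ z0 u)).card ≤ t + 2 * g * N + b * R := by
        intro c hc d p z Rv St A evs hor hs
        rcases hor with hl | hd
        · by_cases hw : Wide φ g a0 (ext z0 X (P.C c))
          · exact ⟨c, z, hs.fals, hw, finish hDI hD hPN hs hz1⟩
          · obtain ⟨z', St', A', hs', hz'⟩ := rebase hAL hAG hFS (d' := P.run c + 1) hinj hg haa
              hm hPE hPN hX hs hw hl (Nat.succ_le_succ (P.run_le c))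
            exact ih c.val (by rw [← hv]; exact hc) c rfl z' hz' 0 z' St' St' A' [] hs'
        · rw [hd] at hs
          exact ih c.val (by rw [← hv]; exact hc) c rfl z1 hz1 p z Rv St A evs hs
      -- the step when the active set is small
      have step : ∀ (p : ℕ) (z : V → Bool) (Rv St : Finset V) (A : ℕ → Finset (Fin N))
          (evs : List (Ev N b k)),
          StateAt φ Forb g a a0 (D + 1) L z1 (ext z0 X (P.C v)) (P.run v + 1) p z Rv St A evs →
          (Act φ g Rv).card < a →
          ∃ (v : Fin S) (z : V → Bool), Falsified (ext z0 X (P.C v)) z ∧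
            Wide φ g a0 (ext z0 X (P.C v)) ∧
            (Finset.univ.filter (fun u => z u ≠ z0 u)).card ≤ t + 2 * g * N + b * R := by
        intro p z Rv St A evs hs hact
        rcases P.rule v with ⟨c, hc, hcv⟩ | ⟨a', b', x, ha', hb', hra, hrb, hCa, hCb⟩
        · exact absurd (hcv.trans Finset.subset_union_left)
            (hLF V N b k g a a0 (D + 1) L φ Forb z1 (ext z0 X (P.C v)) (P.run v + 1) p z Rv St A
              evs hg hs c hc)
        · obtain ⟨d1, hd1, hd1'⟩ : ∃ d1, d1 < P.run v + 1 ∧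
              (opp σ (P.C a') ≤ t ∨ d1 = P.run a' + 1) := by
            rcases hra with h | h
            · exact ⟨0, Nat.succ_pos _, Or.inl h⟩
            · exact ⟨P.run a' + 1, Nat.succ_lt_succ h, Or.inr rfl⟩
          obtain ⟨d2, hd2, hd2'⟩ : ∃ d2, d2 < P.run v + 1 ∧
              (opp σ (P.C b') ≤ t ∨ d2 = P.run b' + 1) := by
            rcases hrb with h | h
            · exact ⟨0, Nat.succ_pos _, Or.inl h⟩
            · exact ⟨P.run b' + 1, Nat.succ_lt_succ h, Or.inr rfl⟩
          obtain ⟨z', Rv', A', evs', h⟩ := hST V N b k g a a0 (D + 1) L m R φ Forb z1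
            (ext z0 X (P.C v)) (ext z0 X (P.C a')) (ext z0 X (P.C b')) x (P.run v + 1) d1 d2 p z
            Rv St A evs hinj hg hD hPE hPN hs hact hd1 hd2 (ext_sub hCa) (ext_sub hCb)
          rcases h with h | h
          · exact child a' ha' d1 p z' Rv' St A' evs' hd1' h
          · exact child b' hb' d2 p z' Rv' St A' evs' hd2' h
      intro p z Rv St A evs hs
      by_cases hact : (Act φ g Rv).card < a
      · exact step p z Rv St A evs hs hact
      · push Not at hact
        by_cases hw : Wide φ g a0 (ext z0 X (P.C v))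
        · exact ⟨v, z, hs.fals, hw, finish hDI hD hPN hs hz1⟩
        · obtain ⟨z', Rv', A', evs', h, hc⟩ := hRS V N b k g a a0 (D + 1) L m R φ Forb z1
            (ext z0 X (P.C v)) (P.run v + 1) p z Rv St A evs hinj hg haa hL hD hPE hPN hs hact hw
          exact step (p + 1) z' Rv' Rv' A' evs' h (by omega)
  obtain ⟨i, hi⟩ := P.root
  refine key i.val i rfl z0 ?_ 0 z0 X X (fun _ => ∅) [] ?_
  · simp
  · rw [hi]
    exact root_state z0 X hk hg ha0 (Nat.succ_le_succ (P.run_le i)) hXb

end Pool.Agent.H69.LR
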