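import Pool.Agent.H69.LR.Defs
import Pool.Agent.H60.RD.CN

/-!
# The final count
-/

namespace Pool.Agent.H69.LR

open Finset Pool.Agent.H79.RD

/-- The size of a Hamming ball. -/
theorem ball {V : Type} [Fintype V] [DecidableEq V] (w : V → Bool) (q r : ℕ) (hq : 1 ≤ q) :
    (Finset.univ.filter (fun z : V → Bool =>
      (Finset.univ.filter (fun u => z u ≠ w u)).card ≤ r)).card * q ^ Fintype.card V ≤
      q ^ r * (q + 1) ^ Fintype.card V := by
  classical
  have h1 : ∑ z : V → Bool, ∏ u, (if z u = w u then q else 1) = (q + 1) ^ Fintype.card V := by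
    have h2 := Finset.prod_univ_sum (fun _ : V => (Finset.univ : Finset Bool))
      (fun u s => if s = w u then q else 1)
    rw [Fintype.piFinset_univ] at h2
    rw [← h2]
    have h3 : ∀ u : V, ∑ s : Bool, (if s = w u then q else 1) = q + 1 := by
      intro u
      rw [Fintype.sum_bool]
      cases w u
      · simp [add_comm]
      · simp
    rw [Finset.prod_congr rfl fun u _ => h3 u, Finset.prod_const]
    rfl
  rw [← h1, Finset.mul_sum, ← smul_eq_mul (a := Finset.card _), ← Finset.sum_const]
  refine le_trans (Finset.sum_le_sum fun z hz => ?_)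
    (Finset.sum_le_sum_of_subset (Finset.subset_univ (Finset.univ.filter (fun z : V → Bool =>
      (Finset.univ.filter (fun u => z u ≠ w u)).card ≤ r))))
  have hz' := (Finset.mem_filter.1 hz).2
  have h4 : ∏ u, (if z u = w u then q else 1) = q ^ (Finset.univ.filter (fun u => z u = w u)).card := by
    rw [Finset.prod_ite, Finset.prod_const, Finset.prod_const_one, mul_one]
  rw [h4, ← pow_add]
  refine Nat.pow_le_pow_right hq ?_
  have h5 := Finset.card_filter_add_card_filter_not (s := (Finset.univ : Finset V))
    (fun u => z u = w u)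
  rw [Finset.card_univ] at h5
  have h6 : (Finset.univ.filter (fun u => ¬ (z u = w u))).card ≤ r :=
    le_trans (le_of_eq (congrArg Finset.card (Finset.filter_congr fun _ _ => Iff.rfl))) hz'
  omega

/-- A wide clause has many variables. -/
theorem wide_card {V : Type} [DecidableEq V] {N b g a0 : ℕ} {φ : Fin N → Fin b → V}
    (hinj : Inj2 φ) {C : Clause V} (hv : Wide φ g a0 C) : a0 * (b - 2 * g) ≤ (vars C).card := by
  classical
  unfold Wide at hv
  set G := (Finset.univ : Finset (Fin N)).filter
    (fun i => (unr φ (vars C) i).card < 2 * g) with hG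
  set H : Fin N → Finset (Fin b) := fun i =>
    Finset.univ.filter (fun j => φ i j ∈ vars C) with hH
  have hHc : ∀ i ∈ G, b - 2 * g ≤ (H i).card := by
    intro i hi
    have h2 := (Finset.mem_filter.mp hi).2
    have h3 : (H i).card + (unr φ (vars C) i).card = b := by
      have := Finset.card_filter_add_card_filter_not (s := (Finset.univ : Finset (Fin b)))
        (fun j => φ i j ∈ vars C)
      rw [Finset.card_univ, Fintype.card_fin] at this
      exact this
    omega
  have hmap : (G.sigma H).card ≤ (vars C).card := by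
    refine Finset.card_le_card_of_injOn (fun p => φ p.1 p.2) ?_ ?_
    · rintro ⟨i, j⟩ hp
      rw [Finset.mem_coe, Finset.mem_sigma] at hp
      exact (Finset.mem_filter.mp hp.2).2
    · rintro ⟨i, j⟩ - ⟨i', j'⟩ - h
      obtain ⟨h1, h2⟩ := hinj i j i' j' h
      subst h1
      subst h2
      rfl
  rw [Finset.card_sigma] at hmap
  refine le_trans ?_ hmap
  calc a0 * (b - 2 * g) ≤ G.card * (b - 2 * g) := Nat.mul_le_mul_right _ hv
    _ = ∑ i ∈ G, (b - 2 * g) := by rw [Finset.sum_const, smul_eq_mul]
    _ ≤ _ := Finset.sum_le_sum hHc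

/-- The final count: if every assignment which differs from `σ` in the first `2 g` places of every
block leads to a wide line, then there are many lines. -/
theorem count {V : Type} [Fintype V] [DecidableEq V] {N b g a0 S e : ℕ}
    (φ : Fin N → Fin b → V) (hinj : Inj2 φ) (σ : V → Bool) (C : Fin S → Clause V)
    (H : ∀ z0 : V → Bool, (∀ i (j : Fin b), j.val < 2 * g → z0 (φ i j) ≠ σ (φ i j)) →
      ∃ (v : Fin S) (z : V → Bool),
        Falsified (ext z0 (Finset.univ.filter (fun u => z0 u = σ u)) (C v)) z ∧
        Wide φ g a0 (ext z0 (Finset.univ.filter (fun u => z0 u = σ u)) (C v)) ∧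
        (Finset.univ.filter (fun u => z u ≠ z0 u)).card ≤ e)
    (q : ℕ) (hq : 1 ≤ q) :
    2 ^ Fintype.card V * q ^ Fintype.card V ≤
      S * (q ^ (e + (Fintype.card V - a0 * (b - 2 * g))) * (q + 1) ^ Fintype.card V) *
        2 ^ (2 * g * N) := by
  classical
  set n := Fintype.card V with hn
  set r := e + (n - a0 * (b - 2 * g)) with hr
  -- the value which falsifies the line
  have ht : ∀ v : Fin S, ∃ t : V → Bool, (∀ u ∈ vars (C v), (u, t u) ∈ C v) := by
    intro v
    have : ∀ u, ∃ s : Bool, u ∈ vars (C v) → (u, s) ∈ C v := by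
      intro u
      by_cases hu : u ∈ vars (C v)
      · unfold vars at hu
        obtain ⟨l, hl, rfl⟩ := Finset.mem_image.mp hu
        exact ⟨l.2, fun _ => hl⟩
      · exact ⟨true, fun h => absurd h hu⟩
    choose t ht using this
    exact ⟨t, ht⟩
  choose t ht using ht
  set wv : Fin S → V → Bool := fun v u => if u ∈ vars (C v) then !(t v u) else σ u with hwv
  set B : Fin S → Finset (V → Bool) := fun v => Finset.univ.filter (fun z : V → Bool =>
      (Finset.univ.filter (fun u => z u ≠ wv v u)).card ≤ r) with hB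
  set Q : Finset V := ((Finset.univ : Finset (Fin N × Fin b)).filter
    (fun p => p.2.val < 2 * g)).image (fun p => φ p.1 p.2) with hQ
  have hQc : Q.card ≤ 2 * g * N := by
    refine Finset.card_image_le.trans ?_
    have hinj2 : ((Finset.univ : Finset (Fin N × Fin b)).filter (fun p => p.2.val < 2 * g)).card ≤
        ((Finset.univ : Finset (Fin N)) ×ˢ Finset.range (2 * g)).card := by
      refine Finset.card_le_card_of_injOn (fun p => (p.1, p.2.val)) ?_ ?_
      · rintro ⟨i, j⟩ hp
        have h1 := (Finset.mem_filter.1 (Finset.mem_coe.1 hp)).2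
        exact Finset.mem_coe.2 (Finset.mem_product.2 ⟨Finset.mem_univ _, Finset.mem_range.2 h1⟩)
      · rintro ⟨i, j⟩ - ⟨i', j'⟩ - h
        simp only [Prod.mk.injEq] at h ⊢
        exact ⟨h.1, Fin.ext h.2⟩
    refine hinj2.trans ?_
    rw [Finset.card_product, Finset.card_univ, Fintype.card_fin, Finset.card_range, mul_comm]
  set Gd : Finset (V → Bool) := Finset.univ.filter (fun z : V → Bool => ∀ u ∈ Q, z u = !(σ u))
    with hGd
  have hGd1 : Gd.card * 2 ^ Q.card = 2 ^ n := Pool.Agent.H60.RD.card_cyl Q (fun u => !(σ u))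
  have hcov : Gd ⊆ Finset.univ.biUnion B := by
    intro z0 hz0
    have hz0' := (Finset.mem_filter.1 hz0).2
    obtain ⟨v, z, hf, hw, hd⟩ := H z0 (by
      intro i j hj
      have h1 := hz0' (φ i j) (Finset.mem_image.2 ⟨(i, j),
        Finset.mem_filter.2 ⟨Finset.mem_univ _, hj⟩, rfl⟩)
      rw [h1]
      cases σ (φ i j) <;> simp)
    rw [Finset.mem_biUnion]
    refine ⟨v, Finset.mem_univ _, Finset.mem_filter.2 ⟨Finset.mem_univ _, ?_⟩⟩
    set X := Finset.univ.filter (fun u => z0 u = σ u) with hX
    have hwc := wide_card hinj hw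
    have hfz := (falsified_ext.1 hf).1
    have hsub : Finset.univ.filter (fun u => z0 u ≠ wv v u) ⊆
        Finset.univ.filter (fun u => z u ≠ z0 u) ∪ (vars (ext z0 X (C v)))ᶜ := by
      intro u hu
      have hne := (Finset.mem_filter.1 hu).2
      rw [Finset.mem_union, Finset.mem_compl, vars_ext, Finset.mem_union]
      by_cases huC : u ∈ vars (C v)
      · left
        refine Finset.mem_filter.2 ⟨Finset.mem_univ _, ?_⟩
        have h3 : z u ≠ t v u := hfz _ (ht v u huC)
        rw [hwv] at hne
        simp only at hne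
        rw [if_pos huC] at hne
        revert h3 hne
        cases z u <;> cases z0 u <;> cases t v u <;> simp
      · right
        rintro (h | h)
        · exact huC h
        · apply hne
          rw [hwv]
          simp only
          rw [if_neg huC]
          exact (Finset.mem_filter.1 h).2
    refine (Finset.card_le_card hsub).trans ((Finset.card_union_le _ _).trans ?_)
    refine Nat.add_le_add hd ?_
    rw [Finset.card_compl]
    omega
  have hBc : ∀ v, (B v).card * q ^ n ≤ q ^ r * (q + 1) ^ n := fun v => ball (wv v) q r hq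
  have hGd2 : Gd.card * q ^ n ≤ S * (q ^ r * (q + 1) ^ n) := by
    calc Gd.card * q ^ n ≤ (∑ v : Fin S, (B v).card) * q ^ n :=
          Nat.mul_le_mul_right _ ((Finset.card_le_card hcov).trans Finset.card_biUnion_le)
      _ = ∑ v : Fin S, (B v).card * q ^ n := by rw [Finset.sum_mul]
      _ ≤ ∑ v : Fin S, q ^ r * (q + 1) ^ n := Finset.sum_le_sum fun v _ => hBc v
      _ = S * (q ^ r * (q + 1) ^ n) := by
          rw [Finset.sum_const, Finset.card_univ, Fintype.card_fin, smul_eq_mul]
  calc 2 ^ n * q ^ n = Gd.card * q ^ n * 2 ^ Q.card := by rw [← hGd1]; ring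
    _ ≤ S * (q ^ r * (q + 1) ^ n) * 2 ^ (2 * g * N) :=
        Nat.mul_le_mul hGd2 (Nat.pow_le_pow_right (by norm_num) hQc)

end Pool.Agent.H69.LR
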