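import Pool.Agent.H79.RD.Targets

/-!
# Dag-like resolution of bounded depth between light lines: definitions

Clauses are finite sets of literals (variable, sign), as in `Pool.Agent.H79.RD`.
-/

namespace Pool.Agent.H69.LR

open Finset Pool.Agent.H79.RD

/-- The number of literals of the clause `C` which are false under the assignment `σ`. -/
def opp {V : Type} [DecidableEq V] (σ : V → Bool) (C : Clause V) : ℕ :=
  (C.filter (fun l => σ l.1 ≠ l.2)).card

/-- A dag-like resolution refutation of `F` with `S` lines; line `i` is a weakening of a clause of
`F`, or follows from two earlier lines `a` and `b` by the resolution rule (with weakening) on a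
variable `x`; the lines can be used many times, and some line is the empty clause.

A line is called light if at most `t` of its literals are false under `σ`, and heavy otherwise.
The number `run i` bounds the number of consecutive heavy lines which come directly after line `i`
on a path (from a line to one of its premises); these numbers are at most `D`, so no path from the
empty clause has more than `D` consecutive heavy lines. The depth of the refutation is not
bounded. -/
structure LRef {V : Type} [DecidableEq V] (F : Finset (Clause V)) (σ : V → Bool)
    (t S D : ℕ) where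
  /-- the lines -/
  C : Fin S → Clause V
  /-- bound for the number of consecutive heavy lines after a line -/
  run : Fin S → ℕ
  run_le : ∀ i, run i ≤ D
  rule : ∀ i, (∃ c ∈ F, c ⊆ C i) ∨ ∃ a b x, a < i ∧ b < i ∧
    (opp σ (C a) ≤ t ∨ run a < run i) ∧ (opp σ (C b) ≤ t ∨ run b < run i) ∧
    C a ⊆ insert (x, true) (C i) ∧ C b ⊆ insert (x, false) (C i)
  root : ∃ i, C i = ∅

/-- The clause `C` together with the literals of the variables in `X` which are false
under `z0`. -/
def ext {V : Type} [DecidableEq V] (z0 : V → Bool) (X : Finset V) (C : Clause V) : Clause V :=
  C ∪ X.image (fun u => (u, !(z0 u)))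

section

variable {V : Type} [DecidableEq V]

theorem vars_ext (z0 : V → Bool) (X : Finset V) (C : Clause V) :
    vars (ext z0 X C) = vars C ∪ X := by
  unfold vars ext
  rw [Finset.image_union, Finset.image_image]
  congr 1
  ext u
  simp

theorem falsified_ext {z0 : V → Bool} {X : Finset V} {C : Clause V} {z : V → Bool} :
    Falsified (ext z0 X C) z ↔ Falsified C z ∧ ∀ u ∈ X, z u = z0 u := by
  unfold Falsified ext
  constructor
  · intro h
    refine ⟨fun l hl => h l (Finset.mem_union_left _ hl), fun u hu => ?_⟩
    have h1 := h (u, !(z0 u)) (Finset.mem_union_right _ (Finset.mem_image_of_mem _ hu))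
    revert h1
    cases z u <;> cases z0 u <;> simp
  · rintro ⟨h1, h2⟩ l hl
    rcases Finset.mem_union.1 hl with hl | hl
    · exact h1 l hl
    · obtain ⟨u, hu, rfl⟩ := Finset.mem_image.1 hl
      have h3 := h2 u hu
      simp only
      rw [h3]
      cases z0 u <;> simp

theorem ext_sub {z0 : V → Bool} {X : Finset V} {C C1 : Clause V} {l : V × Bool}
    (h : C1 ⊆ insert l C) : ext z0 X C1 ⊆ insert l (ext z0 X C) := by
  intro m hm
  rcases Finset.mem_union.1 hm with hm | hm
  · rcases Finset.mem_insert.1 (h hm) with h1 | h1
    · exact Finset.mem_insert.2 (Or.inl h1)
    · exact Finset.mem_insert.2 (Or.inr (Finset.mem_union_left _ h1))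
  · exact Finset.mem_insert.2 (Or.inr (Finset.mem_union_right _ hm))

end

end Pool.Agent.H69.LR
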