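import Mathlib

/-!
# From the integer inequality to the final bound
-/

namespace Pool.Agent.H69.LR

/-- `(1 + 1 / Q) ^ n ≤ 2 ^ (2 n / Q)` -/
theorem one_add_pow_le (Q : ℝ) (hQ : 0 < Q) (n : ℕ) :
    (Q + 1) ^ n ≤ Q ^ n * (2 : ℝ) ^ (2 * n / Q) := by
  have h1 : Q + 1 ≤ Q * Real.exp (1 / Q) := by
    have h2 := Real.add_one_le_exp (1 / Q)
    calc Q + 1 = Q * (1 / Q + 1) := by
          rw [mul_add, mul_one_div_cancel hQ.ne']
          ring
      _ ≤ Q * Real.exp (1 / Q) := mul_le_mul_of_nonneg_left h2 hQ.le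
  calc (Q + 1) ^ n ≤ (Q * Real.exp (1 / Q)) ^ n := pow_le_pow_left₀ (by positivity) h1 n
    _ = Q ^ n * Real.exp (n / Q) := by
        rw [mul_pow, ← Real.exp_nat_mul]
        congr 2
        ring
    _ ≤ Q ^ n * (2 : ℝ) ^ (2 * n / Q) := by
        refine mul_le_mul_of_nonneg_left ?_ (by positivity)
        rw [Real.rpow_def_of_pos (by norm_num)]
        apply Real.exp_le_exp.2
        have h3 := Real.log_two_gt_d9
        have h4 : 0 ≤ (n : ℝ) / Q := by positivity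
        have e : Real.log 2 * (2 * (n : ℝ) / Q) = (n / Q) * (2 * Real.log 2) := by ring
        rw [e]
        nlinarith

/-- The final estimate. -/
theorem numeric (ε : ℝ) (E j n r G S : ℕ) (hE : 0 < E)
    (h1 : (19 * j + 6 : ℝ) ≤ ε / 2 * E) (h2 : 4 ≤ ε * 2 ^ j) (hr : E * r ≤ 19 * n)
    (hG : E * G ≤ 6 * n)
    (h : 2 ^ n * (2 ^ j) ^ n ≤ S * ((2 ^ j) ^ r * (2 ^ j + 1) ^ n) * 2 ^ G) :
    (2 : ℝ) ^ ((1 - ε) * n) ≤ S := by
  set Q : ℝ := 2 ^ j with hQ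
  have hQ0 : 0 < Q := by positivity
  have hE' : (0 : ℝ) < E := by exact_mod_cast hE
  have hn : (0 : ℝ) ≤ n := Nat.cast_nonneg n
  have hj : (0 : ℝ) ≤ j := Nat.cast_nonneg j
  have h' : (2 : ℝ) ^ n * Q ^ n ≤ S * (Q ^ r * (Q + 1) ^ n) * 2 ^ G := by
    rw [hQ]
    exact_mod_cast h
  have h3 : (2 : ℝ) ^ n * Q ^ n ≤ Q ^ n * (S * (Q ^ r * (2 : ℝ) ^ (2 * n / Q)) * 2 ^ G) := by
    refine h'.trans ?_
    have h4 := one_add_pow_le Q hQ0 n
    calc S * (Q ^ r * (Q + 1) ^ n) * 2 ^ G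
        ≤ S * (Q ^ r * (Q ^ n * (2 : ℝ) ^ (2 * n / Q))) * 2 ^ G := by
          gcongr
      _ = Q ^ n * (S * (Q ^ r * (2 : ℝ) ^ (2 * n / Q)) * 2 ^ G) := by ring
  have h5 : (2 : ℝ) ^ n ≤ S * (Q ^ r * (2 : ℝ) ^ (2 * n / Q)) * 2 ^ G := by
    rw [mul_comm] at h3
    exact le_of_mul_le_mul_left h3 (by positivity)
  have h6 : S * (Q ^ r * (2 : ℝ) ^ (2 * n / Q)) * 2 ^ G =
      S * (2 : ℝ) ^ ((j * r : ℝ) + 2 * n / Q + G) := by
    rw [Real.rpow_add (by norm_num), Real.rpow_add (by norm_num), Real.rpow_natCast, hQ,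
      ← pow_mul]
    have : (2 : ℝ) ^ ((j : ℝ) * r) = 2 ^ (j * r) := by
      rw [← Real.rpow_natCast]
      push_cast
      rfl
    rw [this]
    ring
  rw [h6] at h5
  have h7 : (j * r : ℝ) + 2 * n / Q + G ≤ ε * n := by
    have hr' : (E : ℝ) * r ≤ 19 * n := by exact_mod_cast hr
    have hG' : (E : ℝ) * G ≤ 6 * n := by exact_mod_cast hG
    have e1 : 2 * (n : ℝ) / Q ≤ ε / 2 * n := by
      rw [div_le_iff₀ hQ0]
      nlinarith
    have e2 : (E : ℝ) * (j * r + G) ≤ E * (ε / 2 * n) := by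
      have e3 : (E : ℝ) * (j * r) ≤ j * (19 * n) := by
        calc (E : ℝ) * (j * r) = j * (E * r) := by ring
          _ ≤ j * (19 * n) := mul_le_mul_of_nonneg_left hr' hj
      calc (E : ℝ) * (j * r + G) = E * (j * r) + E * G := by ring
        _ ≤ j * (19 * n) + 6 * n := add_le_add e3 hG'
        _ = (19 * j + 6) * n := by ring
        _ ≤ (ε / 2 * E) * n := mul_le_mul_of_nonneg_right h1 hn
        _ = E * (ε / 2 * n) := by ring
    have e4 := le_of_mul_le_mul_left e2 hE'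
    linarith
  have h8 : (2 : ℝ) ^ ((1 - ε) * n) * (2 : ℝ) ^ ((j * r : ℝ) + 2 * n / Q + G) ≤
      S * (2 : ℝ) ^ ((j * r : ℝ) + 2 * n / Q + G) := by
    refine le_trans ?_ h5
    rw [← Real.rpow_add (by norm_num), ← Real.rpow_natCast 2 n]
    refine Real.rpow_le_rpow_of_exponent_le (by norm_num) ?_
    linarith
  exact le_of_mul_le_mul_right h8 (by positivity)

end Pool.Agent.H69.LR
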