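import Pool.Agent.H69.LR.Adv
import Pool.Agent.H69.LR.Count
import Pool.Agent.H69.LR.Num
import Pool.Agent.H46.RD.P3
import Pool.Agent.H14.RD.XIAC
import Pool.Agent.H14.RD.UBN
import Pool.Agent.H74.RD.AG
import Pool.Agent.H74.RD.P1
import Pool.Agent.H90.RD.AL
import Pool.Agent.H81.RDH.AQ
import Pool.Agent.H60.RD.CN
import Pool.Agent.H63.RD.Main
import Pool.Agent.H84.RD.EX
import Pool.Agent.H84.RD.NB
import Pool.Agent.H80.RD.RS
import Pool.Agent.H69.RD.LF
import Pool.Agent.H69.RD.FS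
import Pool.Agent.H69.RD.P2
import Pool.Agent.H16.RD.P4

/-!
# Assembly of the main theorem
-/

namespace Pool.Agent.H69.LR

open Finset Pool.Agent.H79.RD

/-- The abstract theorem. -/
theorem abstract_bound (XI : T_XI) (hLF : T_LF) (hST : T_ST) (hRS : T_RS) (hDI : T_DI)
    (hAL : T_AL) (hAG : T_AG) (hFS : T_FS) {V : Type} [Fintype V] [DecidableEq V]
    {N b k g a a0 D m R T h : ℕ} (φ : Fin N → Fin b → V)
    (hinj : Inj2 φ) (hk : 1 ≤ k) (hg : 1 ≤ g) (h2g : 2 * g ≤ b) (ha0 : 1 ≤ a0) (haa : a0 ≤ a)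
    (hD : D < m * (g * (a - a0))) (hT : 0 < T) (hhR : h + R ≤ 2 ^ g)
    (h1 : 4 * 2 ^ (b * N) * (T - 1) ^ (N ^ k) ≤ T ^ (N ^ k))
    (h2 : 4 * (2 ^ (b * N) * 2 ^ N * N * 2 ^ b) * (2 ^ g * (a + 1) ^ k) ^ h ≤ T ^ h)
    (h3 : 4 * (2 ^ (b * N) * 2 ^ (N * m)) * (m * N * 2 ^ b * a ^ k) ^ R ≤ T ^ R) :
    ∃ F : Finset (Clause V), F.card ≤ N ^ k * 2 ^ (b * k) ∧ (∀ C ∈ F, C.card ≤ k * b) ∧
      (∀ z : V → Bool, ∃ C ∈ F, Falsified C z) ∧
      ∀ (σ : V → Bool) (t S D' : ℕ), D' + 1 ≤ D → Nonempty (LRef F σ t S D') →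
        ∀ q : ℕ, 1 ≤ q → 2 ^ Fintype.card V * q ^ Fintype.card V ≤
          S * (q ^ (t + 2 * g * N + b * R + (Fintype.card V - a0 * (b - 2 * g))) *
            (q + 1) ^ Fintype.card V) * 2 ^ (2 * g * N) := by
  obtain ⟨Forb, hU, hE, hN⟩ := XI N b k T a g R h m hT hhR h1 h2 h3
  refine ⟨Forb.image (clauseOf φ), ?_, ?_, ?_, ?_⟩
  · calc (Forb.image (clauseOf φ)).card ≤ Forb.card := Finset.card_image_le
      _ ≤ Fintype.card (Idx N b k) := Finset.card_le_univ _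
      _ = N ^ k * 2 ^ (b * k) := by
          rw [Fintype.card_prod]
          simp [pow_mul]
  · intro C hC
    obtain ⟨π, -, rfl⟩ := Finset.mem_image.1 hC
    calc (clauseOf φ π).card ≤ (Finset.univ : Finset (Fin k × Fin b)).card :=
          Finset.card_image_le
      _ = k * b := by simp
  · intro z
    obtain ⟨σ, hσ⟩ := hU (bv φ z)
    refine ⟨clauseOf φ (σ, bv φ z ∘ σ), Finset.mem_image_of_mem _ hσ, ?_⟩
    intro l hl
    obtain ⟨q, -, rfl⟩ := Finset.mem_image.1 hl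
    simp [bv]
  · intro σ t S D' hD' hP q hq
    obtain ⟨P⟩ := hP
    refine count φ hinj σ P.C ?_ q hq
    intro z0 hz0
    set X := Finset.univ.filter (fun u => z0 u = σ u) with hX
    refine adversary hLF hST hRS hDI hAL hAG hFS φ Forb hinj hk hg ha0 haa rfl
      (lt_of_le_of_lt hD' hD) hE hN σ z0 P X ?_ ?_
    · intro u hu h
      exact hu (Finset.mem_filter.2 ⟨Finset.mem_univ _, h⟩)
    · intro i
      have hsub : (Finset.univ : Finset (Fin b)).filter (fun j => j.val < 2 * g) ⊆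
          unr φ X i := by
        intro j hj
        refine Finset.mem_filter.2 ⟨Finset.mem_univ _, fun h => ?_⟩
        exact hz0 i j (Finset.mem_filter.1 hj).2 (Finset.mem_filter.1 h).2
      refine le_trans ?_ (Finset.card_le_card hsub)
      have hle : (Finset.range (2 * g)).card ≤
          ((Finset.univ : Finset (Fin b)).filter (fun j => j.val < 2 * g)).card := by
        refine Finset.card_le_card_of_injOn
          (fun j => if h : j < b then (⟨j, h⟩ : Fin b) else ⟨0, by omega⟩) ?_ ?_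
        · intro j hj
          have hj' : j < 2 * g := Finset.mem_range.1 (Finset.mem_coe.1 hj)
          refine Finset.mem_coe.2 (Finset.mem_filter.2 ⟨Finset.mem_univ _, ?_⟩)
          simp only
          rw [dif_pos (show j < b by omega)]
          exact hj'
        · intro j hj j' hj' he
          have h4 : j < 2 * g := Finset.mem_range.1 (Finset.mem_coe.1 hj)
          have h5 : j' < 2 * g := Finset.mem_range.1 (Finset.mem_coe.1 hj')
          simp only at he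
          rw [dif_pos (show j < b by omega), dif_pos (show j' < b by omega)] at he
          exact congrArg Fin.val he
      rwa [Finset.card_range] at hle

/-- The bounds for the exponents. -/
theorem exps {E n N b g a0 R t K : ℕ} (hbN : b * N ≤ n) (h2g : 2 * g ≤ b)
    (haN : a0 ≤ N) (hEK : E ≤ K) (ht : K * t ≤ n)
    (h1 : E * n ≤ E * (a0 * (b - 2 * g)) - E * (N + b * R) + 6 * n)
    (h2 : E * (N + b * R) ≤ E * (a0 * (b - 2 * g))) :
    E * (t + 2 * g * N + b * R + (n - a0 * (b - 2 * g))) ≤ 19 * n ∧ E * (2 * g * N) ≤ 6 * n := by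
  have h3 : E * n + E * (N + b * R) ≤ E * (a0 * (b - 2 * g)) + 6 * n := by omega
  have e0 : (b - 2 * g) + 2 * g = b := by omega
  have e1 : E * (a0 * (b - 2 * g)) ≤ E * (N * (b - 2 * g)) :=
    Nat.mul_le_mul_left _ (Nat.mul_le_mul_right _ haN)
  have e2 : E * (N * (b - 2 * g)) + E * (2 * g * N) = E * (b * N) := by
    calc E * (N * (b - 2 * g)) + E * (2 * g * N) = E * (((b - 2 * g) + 2 * g) * N) := by ring
      _ = E * (b * N) := by rw [e0]
  have e3 : E * (b * N) ≤ E * n := Nat.mul_le_mul_left _ hbN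
  have e4 : E * (N + b * R) = E * N + E * (b * R) := by ring
  have e5 : E * t ≤ n := (Nat.mul_le_mul_right t hEK).trans ht
  have hg : E * (2 * g * N) ≤ 6 * n := by omega
  have hR : E * (b * R) ≤ 6 * n := by omega
  have hA : E * (n - a0 * (b - 2 * g)) ≤ 6 * n := by
    rw [Nat.mul_sub]
    omega
  refine ⟨?_, hg⟩
  calc E * (t + 2 * g * N + b * R + (n - a0 * (b - 2 * g)))
      = E * t + E * (2 * g * N) + E * (b * R) + E * (n - a0 * (b - 2 * g)) := by ring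
    _ ≤ 19 * n := by omega

/-- The main theorem. -/
def T_LMAIN : Prop := ∀ ε : ℝ, 0 < ε → ∃ K n0 : ℕ, ∀ n, n0 ≤ n → ∀ w : ℕ,
  K * (Nat.log 2 n) ^ 2 ≤ w → K * w ≤ n →
  ∃ F : Finset (Clause (Fin n)), F.card ≤ 2 ^ (2 * w) ∧ (∀ C ∈ F, C.card ≤ w) ∧
    (∀ z : Fin n → Bool, ∃ C ∈ F, Falsified C z) ∧
    ∀ (σ : Fin n → Bool) (t S D : ℕ), K * t ≤ n → K * D * Nat.log 2 n ≤ n * w →
      Nonempty (LRef F σ t S D) → (2 : ℝ) ^ ((1 - ε) * n) ≤ S

theorem fin_main (XI : T_XI) (hLF : T_LF) (hST : T_ST) (hRS : T_RS) (hDI : T_DI)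
    (hAL : T_AL) (hAG : T_AG) (hFS : T_FS) (hP3 : T_P3) (hP4 : T_P4) : T_LMAIN := by
  intro ε hε
  obtain ⟨j, hj⟩ : ∃ j : ℕ, (4 : ℝ) ≤ ε * 2 ^ j := by
    obtain ⟨j, hj⟩ := pow_unbounded_of_one_lt (4 / ε) (one_lt_two (α := ℝ))
    refine ⟨j, ?_⟩
    rw [div_lt_iff₀ hε] at hj
    linarith
  obtain ⟨E, hE8, hE6⟩ : ∃ E : ℕ, 8 ≤ E ∧ (19 * j + 6 : ℝ) ≤ ε / 2 * E := by
    refine ⟨max 8 ⌈(19 * j + 6 : ℝ) / (ε / 2)⌉₊, le_max_left _ _, ?_⟩
    have h1 : ((19 * j + 6 : ℝ) / (ε / 2)) ≤ (max 8 ⌈(19 * j + 6 : ℝ) / (ε / 2)⌉₊ : ℕ) :=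
      (Nat.le_ceil _).trans (by exact_mod_cast le_max_right _ _)
    have h2 := mul_le_mul_of_nonneg_left h1 (half_pos hε).le
    rwa [mul_div_cancel₀ _ (half_pos hε).ne'] at h2
  obtain ⟨K, n0, hEK, hK2, hpar⟩ := hP4 E hE8
  refine ⟨2 * K, max n0 4, ?_⟩
  intro n hn w hw1 hw2
  have hn0 : n0 ≤ n := (le_max_left _ _).trans hn
  have hn4 : 4 ≤ n := (le_max_right _ _).trans hn
  have hlog : 0 < Nat.log 2 n := Nat.log_pos (by norm_num) (by omega)
  have hKl : 0 < K * Nat.log 2 n := Nat.mul_pos (by omega) hlog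
  have hw1' : K * (Nat.log 2 n) ^ 2 ≤ w := by
    refine le_trans ?_ hw1
    exact Nat.mul_le_mul_right _ (by omega)
  have hw2' : K * w ≤ n := le_trans (Nat.mul_le_mul_right _ (by omega)) hw2
  obtain ⟨N, b, g, k, a, a0, R, h, m, q, s, s', ⟨hN, hk, hg, hgb, ha0, ha0a, hbN, hkb, hN2, hD,
    hhR⟩, ⟨hq, hq1, hq2, hs1, hs2, hs3, hh⟩, ⟨hX, hY⟩⟩ :=
    hpar n hn0 w (n * w / (K * Nat.log 2 n)) hw1' hw2'
      (by
        have := Nat.div_mul_le_self (n * w) (K * Nat.log 2 n)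
        calc K * (n * w / (K * Nat.log 2 n)) * Nat.log 2 n
            = n * w / (K * Nat.log 2 n) * (K * Nat.log 2 n) := by ring
          _ ≤ n * w := this)
  obtain ⟨T, hT, hT1, hT2, hT3⟩ := hP3 N b k a g R h m q s s' hN hq hq1 hq2 hs1 hs2 hs3 hh
  have haN : a0 ≤ N := by
    have h1 : q * (a + 1) ≤ q * N := hq1.trans (Nat.mul_le_mul_right _ (Nat.sub_le _ _))
    have h2 := Nat.le_of_mul_le_mul_left h1 hq
    omega
  have hb : 0 < b := by omega
  have hlt : ∀ (i : Fin N) (j : Fin b), b * i.val + j.val < n := by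
    intro i j
    have h1 : b * i.val + b ≤ b * N := by
      have := Nat.mul_le_mul_left b (Nat.succ_le_of_lt i.isLt)
      calc b * i.val + b = b * (i.val + 1) := by ring
        _ ≤ b * N := this
    have := j.isLt
    omega
  obtain ⟨F, hF1, hF2, hF3, hF4⟩ := abstract_bound XI hLF hST hRS hDI hAL hAG hFS
    (V := Fin n) (D := n * w / (K * Nat.log 2 n))
    (fun (i : Fin N) (j : Fin b) => (⟨b * i.val + j.val, hlt i j⟩ : Fin n))
    (by
      intro i j i' j' hij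
      have h1 : b * i.val + j.val = b * i'.val + j'.val := by simpa using congrArg Fin.val hij
      have hi : i.val = i'.val := by
        have e1 : (b * i.val + j.val) / b = i.val := by
          rw [Nat.mul_add_div hb, Nat.div_eq_of_lt j.isLt, add_zero]
        have e2 : (b * i'.val + j'.val) / b = i'.val := by
          rw [Nat.mul_add_div hb, Nat.div_eq_of_lt j'.isLt, add_zero]
        rw [← e1, h1, e2]
      refine ⟨Fin.ext hi, Fin.ext ?_⟩
      rw [hi] at h1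
      omega)
    hk hg hgb ha0 ha0a hD hT hhR hT1 hT2 hT3
  refine ⟨F, ?_, ?_, hF3, ?_⟩
  · calc F.card ≤ N ^ k * 2 ^ (b * k) := hF1
      _ ≤ (2 ^ b) ^ k * 2 ^ (b * k) := Nat.mul_le_mul_right _ (Nat.pow_le_pow_left hN2 k)
      _ = 2 ^ (2 * (k * b)) := by rw [← pow_mul, ← pow_add]; ring_nf
      _ ≤ 2 ^ (2 * w) := Nat.pow_le_pow_right (by norm_num) (by omega)
  · intro C hC
    exact (hF2 C hC).trans hkb
  · intro σ t S D ht hDw hR
    have hDD : D + 1 ≤ n * w / (K * Nat.log 2 n) := by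
      rw [Nat.le_div_iff_mul_le hKl]
      rcases Nat.eq_zero_or_pos D with h0 | h0
      · rw [h0, Nat.zero_add, Nat.one_mul]
        calc K * Nat.log 2 n ≤ K * (Nat.log 2 n) ^ 2 :=
              Nat.mul_le_mul_left _ (Nat.le_self_pow (by norm_num) _)
          _ ≤ w := hw1'
          _ ≤ n * w := Nat.le_mul_of_pos_left _ (by omega)
      · calc (D + 1) * (K * Nat.log 2 n) ≤ (2 * D) * (K * Nat.log 2 n) :=
              Nat.mul_le_mul_right _ (by omega)
          _ = 2 * K * D * Nat.log 2 n := by ring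
          _ ≤ n * w := hDw
    have hmain := hF4 σ t S D hDD hR (2 ^ j) Nat.one_le_two_pow
    rw [Fintype.card_fin] at hmain
    obtain ⟨hr, hG⟩ := exps (t := t) (K := K) hbN hgb haN hEK
      (le_trans (Nat.mul_le_mul_right _ (by omega)) ht) hX hY
    exact numeric ε E j n _ (2 * g * N) S (by omega) hE6 hj hr hG hmain

theorem main : T_LMAIN := by
  have hLF : T_LF := Pool.Agent.H69.RD.pf_LF
  have hFS : T_FS := Pool.Agent.H69.RD.pf_FS
  have hP4 : T_P4 := Pool.Agent.H16.RD.pf_P4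
  have hUB : T_UB := Pool.Agent.H14.RD.pf_UB
  have hUN : T_UN := Pool.Agent.H14.RD.pf_UN
  have hEX : T_EX := Pool.Agent.H84.RD.pf_EX hUB
  have hNB : T_NB := Pool.Agent.H84.RD.pf_NB hUB
  have hXI : T_XI := Pool.Agent.H14.RD.pf_XI hUN hEX hNB
  have hAC : T_AC := Pool.Agent.H14.RD.pf_AC
  have hAL : T_AL := Pool.Agent.H90.RD.pf_AL hAC
  have hAG : T_AG := Pool.Agent.H74.RD.pf_AG
  have hAQ : T_AQ := Pool.Agent.H81.RDH.pf_AQ
  have hLB : T_LB := Pool.Agent.H60.RD.pf_LB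
  have hDI : T_DI := Pool.Agent.H63.RDM.pf_DI
  have hST : T_ST := Pool.Agent.H63.RDM.pf_ST hAC hAG hAQ
  have hRS : T_RS := pf_RS hAL hAG hLB hFS
  have hP1 : T_P1 := Pool.Agent.H74.RD.pf_P1
  have hP2 : T_P2 := Pool.Agent.H69.RD.pf_P2 hP1
  have hP3 : T_P3 := Pool.Agent.H46.RD.pf_P3 hP1 hP2
  exact fin_main hXI hLF hST hRS hDI hAL hAG hFS hP3 hP4

end Pool.Agent.H69.LR
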