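import Pool.Agent.H69.LR.Defs

/-!
# The restart of the history at a light line
-/

namespace Pool.Agent.H69.LR

open Finset Pool.Agent.H79.RD

/-- At a light line which is not wide the history can be forgotten: all deviations from `z0` are
undone except for the recorded ones (at most `t`) and less than `2 g` in every active block. -/
theorem rebase (hAL : T_AL) (hAG : T_AG) (hFS : T_FS) {V : Type} [Fintype V] [DecidableEq V]
    {N b k g a a0 D L m R : ℕ} {φ : Fin N → Fin b → V} {Forb : Finset (Idx N b k)}
    {σ z0 z1 : V → Bool} {X : Finset V} {C : Clause V} {t d d' p : ℕ} {z : V → Bool}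
    {Rv St : Finset V} {A : ℕ → Finset (Fin N)} {evs : List (Ev N b k)}
    (hinj : Inj2 φ) (hg : 1 ≤ g) (haa : a0 ≤ a) (hm : 0 < m) (hPE : PE Forb a g R)
    (hPN : PN Forb a m R) (hX : ∀ u, u ∉ X → z0 u ≠ σ u)
    (hst : StateAt φ Forb g a a0 D L z1 (ext z0 X C) d p z Rv St A evs)
    (hw : ¬ Wide φ g a0 (ext z0 X C)) (hl : opp σ C ≤ t) (hd : d' ≤ D) :
    ∃ (z' : V → Bool) (St' : Finset V) (A' : ℕ → Finset (Fin N)),
      StateAt φ Forb g a a0 D L z' (ext z0 X C) d' 0 z' St' St' A' [] ∧
      (Finset.univ.filter (fun u => z' u ≠ z0 u)).card ≤ t + 2 * g * N := by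
  classical
  set W : Finset V := vars (ext z0 X C) with hW
  have hWRv : W ⊆ Rv := by
    intro u hu
    obtain ⟨l, hl, rfl⟩ := Finset.mem_image.mp hu
    exact hst.vrs l hl
  have hunrmono : ∀ i, unr φ Rv i ⊆ unr φ W i := by
    intro i j hj
    simp only [unr, Finset.mem_filter, Finset.mem_univ, true_and] at hj ⊢
    exact fun h => hj (hWRv h)
  obtain ⟨St', hWSt, hActSt, hstu⟩ := hFS V N b g φ hinj hg W
  set B1 : Finset (Fin N) := Act φ g W with hB1
  set B2 : Finset (Fin N) := Finset.univ.filter (fun i => (unr φ W i).card < 2 * g) with hB2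
  have hB12 : B1 ⊆ B2 := by
    intro i hi
    simp only [hB1, Act, Finset.mem_filter, Finset.mem_univ, true_and] at hi
    simp only [hB2, Finset.mem_filter, Finset.mem_univ, true_and]
    omega
  have hB2c : B2.card < a0 := by
    unfold Wide at hw
    exact not_le.mp hw
  have hB1Act : B1 ⊆ Act φ g Rv := by
    intro i hi
    simp only [hB1, Act, Finset.mem_filter, Finset.mem_univ, true_and] at hi ⊢
    exact lt_of_le_of_lt (Finset.card_le_card (hunrmono i)) hi
  have hSat1 : Sat Forb (bv φ z) B1 := by
    intro σ' hσ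
    exact hst.sat σ' (fun j => hB1Act (hσ j))
  have hHist1 : Hist Forb (fun _ => B1) (bv φ z) (bv φ z) 0 ([] : List (Ev N b k)) := by
    refine ⟨rfl, ?_, ?_, ?_, ?_⟩ <;> simp [prs]
  have hU : ∀ i : Fin N, ∃ U : Finset (Fin b), i ∈ B2 \ B1 → (U ⊆ unr φ W i ∧ U.card = g) := by
    intro i
    by_cases hi : i ∈ B2 \ B1
    · have h1 : g ≤ (unr φ W i).card := by
        have := (Finset.mem_sdiff.mp hi).2
        simp only [hB1, Act, Finset.mem_filter, Finset.mem_univ, true_and, not_lt] at this
        exact this
      obtain ⟨U, hU1, hU2⟩ := Finset.exists_subset_card_eq h1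
      exact ⟨U, fun _ => ⟨hU1, hU2⟩⟩
    · exact ⟨∅, fun h => absurd h hi⟩
  choose U hU using hU
  have hunion : B1 ∪ (B2 \ B1) = B2 := Finset.union_sdiff_of_subset hB12
  obtain ⟨ζ', evs', hz1, hz2, -, hS'⟩ := hAL N b k a g R m 0 Forb (fun _ => B1) (bv φ z) (bv φ z) []
    (B2 \ B1) U hPE hPN hm
    (fun _ => le_trans (Finset.card_le_card hB12) (le_trans hB2c.le haa)) hHist1 hSat1
    Finset.disjoint_sdiff (by rw [hunion]; exact le_trans hB2c.le haa) (fun i hi => (hU i hi).2)
  rw [hunion] at hS'
  -- the new assignment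
  set z2 : V → Bool := fun u => if u ∈ W then z u else z0 u with hz2def
  obtain ⟨z', hbv, hoff⟩ := hAG V N b φ hinj z2
    (fun i j => if i ∈ B2 then ζ' i j else z2 (φ i j))
  have hval : ∀ i j, z' (φ i j) = if i ∈ B2 then ζ' i j else z2 (φ i j) := fun i j =>
    congrFun (congrFun hbv i) j
  have hkey : ∀ u ∈ W, z' u = z u := by
    intro u hu
    by_cases hblk : ∃ i j, u = φ i j
    · obtain ⟨i, j, rfl⟩ := hblk
      rw [hval]
      by_cases hi2 : i ∈ B2
      · rw [if_pos hi2]
        by_cases hi : i ∈ B2 \ B1
        · have h1 : j ∉ U i := by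
            intro hj
            have := (hU i hi).1 hj
            simp only [unr, Finset.mem_filter, Finset.mem_univ, true_and] at this
            exact this hu
          exact hz2 i hi j h1
        · rw [hz1 i hi]
          rfl
      · rw [if_neg hi2, hz2def]
        simp only
        rw [if_pos hu]
    · push Not at hblk
      rw [hoff u hblk, hz2def]
      simp only
      rw [if_pos hu]
  have hBz : ∀ i ∈ B2, bv φ z' i = ζ' i := by
    intro i hi
    funext j
    show z' (φ i j) = ζ' i j
    rw [hval, if_pos hi]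
  refine ⟨z', St', fun _ => B2, ?_, ?_⟩
  · refine
      { fals := ?_, vrs := ?_, sat := ?_, cardA := ?_, ap := ?_, hist := ?_, off := fun _ _ => rfl,
        sub := Finset.Subset.refl _, stc := ?_, stu := hstu, pot := ?_ }
    · intro l hl'
      rw [hkey l.1 (Finset.mem_image_of_mem _ hl')]
      exact hst.fals l hl'
    · intro l hl'
      exact hWSt (Finset.mem_image_of_mem _ hl')
    · rw [hActSt]
      intro σ' hσ
      have h1 : bv φ z' ∘ σ' = ζ' ∘ σ' := by
        funext j
        exact hBz _ (hσ j)
      rw [h1]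
      exact hS' σ' hσ
    · intro q
      exact le_trans hB2c.le haa
    · rw [hActSt]
    · refine ⟨rfl, ?_, ?_, ?_, ?_⟩ <;> simp [prs]
    · rw [hActSt]
      exact hB2c
    · rw [Finset.sdiff_self, Finset.card_empty]
      omega
  · -- the deviations
    have hfz := (falsified_ext.1 hst.fals)
    have hsub : Finset.univ.filter (fun u => z' u ≠ z0 u) ⊆
        (C.filter (fun l => σ l.1 ≠ l.2)).image Prod.fst ∪
          (B2.sigma (fun i => unr φ W i)).image (fun q => φ q.1 q.2) := by
      intro u hu
      have hne := (Finset.mem_filter.1 hu).2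
      by_cases huW : u ∈ W
      · refine Finset.mem_union_left _ ?_
        rw [hkey u huW] at hne
        have huX : u ∉ X := fun h => hne (hfz.2 u h)
        have hσ := hX u huX
        have huC : u ∈ vars C := by
          rw [hW, vars_ext] at huW
          exact (Finset.mem_union.1 huW).resolve_right huX
        obtain ⟨l, hlC, rfl⟩ := Finset.mem_image.1 huC
        refine Finset.mem_image_of_mem _ (Finset.mem_filter.2 ⟨hlC, ?_⟩)
        have h3 := hfz.1 l hlC
        revert hne hσ h3
        cases z l.1 <;> cases z0 l.1 <;> cases σ l.1 <;> cases l.2 <;> simp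
      · refine Finset.mem_union_right _ ?_
        by_cases hblk : ∃ i j, u = φ i j
        · obtain ⟨i, j, rfl⟩ := hblk
          have hi2 : i ∈ B2 := by
            by_contra hi2
            apply hne
            rw [hval, if_neg hi2, hz2def]
            simp only
            rw [if_neg huW]
          refine Finset.mem_image.2 ⟨⟨i, j⟩, Finset.mem_sigma.2 ⟨hi2, ?_⟩, rfl⟩
          exact Finset.mem_filter.2 ⟨Finset.mem_univ _, huW⟩
        · exfalso
          push Not at hblk
          apply hne
          rw [hoff u hblk, hz2def]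
          simp only
          rw [if_neg huW]
    refine (Finset.card_le_card hsub).trans ((Finset.card_union_le _ _).trans ?_)
    refine Nat.add_le_add (Finset.card_image_le.trans hl) (Finset.card_image_le.trans ?_)
    rw [Finset.card_sigma]
    calc ∑ i ∈ B2, (unr φ W i).card ≤ ∑ i ∈ B2, 2 * g :=
          Finset.sum_le_sum fun i hi => (Finset.mem_filter.1 hi).2.le
      _ = B2.card * (2 * g) := by rw [Finset.sum_const, smul_eq_mul]
      _ ≤ N * (2 * g) := by
          refine Nat.mul_le_mul_right _ ?_
          have := Finset.card_le_univ B2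
          rwa [Fintype.card_fin] at this
      _ = 2 * g * N := by ring

end Pool.Agent.H69.LR
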